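import Pool.Agent.TH603.Sur.Main

/-! The critical degrees of vectors of two consecutive multiplicities. -/

set_option autoImplicit false

namespace Pool.Agent.TH105.NU

open Pool.Agent.TH176.Nag Pool.Agent.TH603.Sur

/-- the sign decides, in the degrees next to the critical one -/
def CritN (ε : ℝ) (n m : ℕ) : Prop := ∀ w : Fin n → ℕ, (∀ i, w i = m ∨ w i = m + 1) →
  ∀ d : ℕ, |2 * (d : ℝ) + 3 - √(n : ℝ) - 2 * (∑ i, (w i : ℝ)) / √(n : ℝ)| < ε →
    ((d + 2).choose 2 ≤ Pool.Agent.TH603.Sur.cond w → Emp w (TZ d)) ∧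
    (Pool.Agent.TH603.Sur.cond w ≤ (d + 2).choose 2 → Sur w (TZ d))

end Pool.Agent.TH105.NU
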