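import Pool.Agent.TH105.NU.Crit
import Pool.Agent.TH663.NU.Outer

/-! The expected dimension at `n` general points of multiplicities `m`, `m + 1`, in all degrees, all
large `n`. -/

set_option autoImplicit false

namespace Pool.Agent.TH105.NU

open Finset Pool.Agent.TH176.Nag Pool.Agent.TH603.Sur Pool.Agent.H932R3

/-- **The expected dimension at `n` general points of multiplicities `m` and `m + 1`, in all degrees,
all large `n`.** -/
theorem expDim_near :
    ∃ N0 : ℕ, ∀ n : ℕ, N0 ≤ n → ∀ m : ℕ, 1 ≤ m → ∀ w : Fin n → ℕ, (∀ i, w i = m ∨ w i = m + 1) →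
      ∀ {L : Type} [Field L] [CharZero L],
      ∃ F : MvPolynomial (Fin n × Fin 2) ℚ, F ≠ 0 ∧ ∀ (P : Fin n → Fin 2 → L),
        MvPolynomial.aeval (fun ij : Fin n × Fin 2 => P ij.1 ij.2) F ≠ 0 →
        ∀ d : ℕ, ExpDim L w P d :=
  Pool.Agent.TH663.NU.expDim_of_critN (ε := 1 / 52) (by norm_num) critN

end Pool.Agent.TH105.NU
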