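import Pool.Agent.TH105.NU.Sides

/-! The two systems with one big point. -/

set_option autoImplicit false

namespace Pool.Agent.TH105.NU

open Finset Pool.Agent.TH176.Nag Pool.Agent.TH603.Sur Pool.Agent.TH603.Cut Pool.Agent.TH663.N13
  Pool.Agent.TH105.N13

section
variable {n k k' m d t z a b D : ℕ} {x κ : ℝ}

/-- lower bound of the row `m` in all cases -/
theorem row_m {β lam : ℝ} {v : ℤ} (q : NumN n k k' m z t a b D) (h : SetN n k m d t x κ)
    (hlam : lam * k = 3 * x + κ - 9 * k - v) (hnoise : Noise lam k) :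
    (b : ℝ) ≤ (Pc β lam (L1 d D) (d / 3) k v m : ℝ) - Pc β lam (L1 d D) (d / 3) k v (m + 1) := by
  obtain ⟨hk, hκ2, hκm, hX, hd1, hd2⟩ := h.facts
  obtain ⟨r1, r2, r3, r4⟩ := q.real
  have hx1 := h.hx1
  have hκ := h.hκ
  have hx0 : 0 < x := by linarith
  have hm0 : (0 : ℝ) ≤ m := Nat.cast_nonneg m
  by_cases hup : 1 ≤ z ∧ (3 * x + κ) * (m + 1) ≤ 3 * (d : ℝ)
  · have h1 := (abs_le.1 (row_eq (β := β) (E := D) (e := 0) q h hlam hnoise hup.1 hup.2 (by ring) le_rfl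
      (by norm_num))).1
    linarith
  · -- the auxiliary multiplicity
    have hz1 : z ≤ 1 ∧ 3 * (d : ℝ) ≤ (3 * x + κ) * (m + 1) := by
      rcases q.cases h with ⟨h3, h4, h5⟩ | ⟨h3, h4, h5⟩ | ⟨h3, h4, h5⟩ | ⟨h3, h4, h5⟩
      · exact ⟨by omega, h5⟩
      · exact ⟨by omega, h5⟩
      · exact absurd ⟨by omega, h5⟩ hup
      · exact absurd ⟨by omega, by linarith⟩ hup
    obtain ⟨E, hE⟩ : ∃ E : ℕ, E + 1 = k * (m + 1) := by
      refine ⟨k * (m + 1) - 1, ?_⟩
      have : 1 ≤ k * (m + 1) := Nat.one_le_iff_ne_zero.2 (by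
        have := h.hk
        positivity)
      omega
    have hDE : D ≤ E := by
      have h6 : D + 1 ≤ E + 1 := by
        rw [hE, q.hD, q.hk']
        have : (1 + z) * k' ≤ 2 * k' := Nat.mul_le_mul_right k' (by omega)
        calc 2 * k' * m + (1 + z) * k' ≤ 2 * k' * m + 2 * k' := by omega
          _ = 2 * k' * (m + 1) := by ring
      omega
    have h1 := row_lowN (β := β) h hE hlam hnoise hz1.2
    have h2 : Pc β lam (L1 d E) (d / 3) k v m ≤ Pc β lam (L1 d D) (d / 3) k v m := Pc_mono hDE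
    have hzero : ∀ E0 : ℕ, Pc β lam (L1 d E0) (d / 3) k v (m + 1) = 0 := fun E0 => by
      apply tip_zero hlam
      push_cast
      have e : (9 * (k : ℝ) + (3 * x + κ - 9 * k)) = 3 * x + κ := by ring
      rw [e]
      exact hz1.2
    rw [hzero D]
    rw [hzero E] at h1
    have h2R : (Pc β lam (L1 d E) (d / 3) k v m : ℝ) ≤ Pc β lam (L1 d D) (d / 3) k v m := by
      exact_mod_cast h2
    obtain ⟨D1, hD1⟩ : ∃ D1 : ℝ, D1 = 3 * (d : ℝ) - (3 * x + κ) * (m + 1) + 9 := ⟨_, rfl⟩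
    rw [← hD1] at h1
    rcases Nat.lt_or_ge z 1 with hz0 | hz0
    · have hz00 : z = 0 := by omega
      subst hz00
      have hD2 : D1 ≤ -(4.66 * k) := by
        rcases q.cases h with ⟨h3, h4, h5⟩ | ⟨h3, h4, h5⟩ | ⟨h3, h4, h5⟩ | ⟨h3, h4, h5⟩
        · have h5 : 0 ≤ κ * (m + 1) := by positivity
          rw [hD1]
          linarith
        · omega
        · omega
        · omega
      have h5 : (4.66 * (k : ℝ)) * (4.66 * k) ≤ (-D1) * (-D1) :=
        mul_le_mul (by linarith) (by linarith) (by positivity) (by linarith)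
      have hb : (b : ℝ) = t := by rw [r4]; push_cast; ring
      rw [hb]
      push_cast at h1 ⊢
      nlinarith
    · have hz11 : z = 1 := by omega
      subst hz11
      have hq : D1 * (9 - D1) / 18 ≤ 9 / 8 := by nlinarith [sq_nonneg (D1 - 9 / 2)]
      have hb : (b : ℝ) = t - k ^ 2 / 2 := by rw [r4]; push_cast; ring
      rw [hb]
      push_cast at h1 ⊢
      linarith

/-- **independence** -/
theorem F1N {τ : ℝ} {v u w : ℤ} (q : NumN n k k' m z t a b D) (h : SetN n k m d t x κ)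
    (g : GeoN k v u w τ x κ) :
    Sur (fun o : Option (Fin a ⊕ Fin b) => o.elim D (two a b m)) (TZ d) := by
  obtain ⟨hk, hκ2, hκm, hX, hd1, hd2⟩ := h.facts
  have hx1 := h.hx1
  have hκ := h.hκ
  obtain ⟨s1, s2, s3⟩ := rows_lt q h
  refine Sur_plane g.h0 g.h1 g.hirr (Sur_abs (by omega) (Sur_RF (σ := 3 * x + κ - 9 * k) g.hdet
    (by linarith) g.hlam fun j => ?_))
  rw [two_sub]
  rcases lt_trichotomy j m with hj | hj | hj
  · have h1 := (abs_le.1 (row_lt (β := (2 - τ) * d) (E := D) (e := 0) q h g.hlam g.hnoise hj (by ring)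
      le_rfl (by norm_num))).1
    have h2 : (((a * (m - j) + b * (m + 1 - j) : ℕ) : ℤ) : ℝ) ≤
        (((Pc ((2 - τ) * d) (((6 : ℤ) : ℝ) - 3 * (2 - τ)) (L1 d D) (d / 3) k v j : ℤ) -
        Pc ((2 - τ) * d) (((6 : ℤ) : ℝ) - 3 * (2 - τ)) (L1 d D) (d / 3) k v (j + 1) : ℤ) : ℝ) := by
      push_cast [Nat.cast_sub hj.le, Nat.cast_sub (show j ≤ m + 1 by omega)]
      push_cast at h1
      linarith
    exact_mod_cast h2
  · subst hj
    have h1 := row_m (β := (2 - τ) * d) q h g.hlam g.hnoise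
    rw [Nat.sub_self, Nat.mul_zero, Nat.zero_add, show j + 1 - j = 1 by omega, Nat.mul_one]
    have h2 : (((b : ℕ) : ℤ) : ℝ) ≤
        (((Pc ((2 - τ) * d) (((6 : ℤ) : ℝ) - 3 * (2 - τ)) (L1 d D) (d / 3) k v j : ℤ) -
        Pc ((2 - τ) * d) (((6 : ℤ) : ℝ) - 3 * (2 - τ)) (L1 d D) (d / 3) k v (j + 1) : ℤ) : ℝ) := by
      push_cast at h1 ⊢
      exact h1
    exact_mod_cast h2
  · rw [Nat.sub_eq_zero_of_le (show m ≤ j by omega), Nat.sub_eq_zero_of_le (show m + 1 ≤ j by omega)]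
    have h5 := Pc_anti (β := (2 - τ) * d) (σ := 3 * x + κ - 9 * k) (by linarith) g.hlam (L := L1 d D)
      (H := d / 3) (fun a b _ hab _ => L1_anti hab) j
    have h6 : (Pc ((2 - τ) * d) (((6 : ℤ) : ℝ) - 3 * (2 - τ)) (L1 d D) (d / 3) k v (j + 1) : ℤ) ≤
      Pc ((2 - τ) * d) (((6 : ℤ) : ℝ) - 3 * (2 - τ)) (L1 d D) (d / 3) k v j := by exact_mod_cast h5
    push_cast at h6 ⊢
    linarith

theorem tip_num {x X m y : ℝ} (hx : 100 ≤ x) (hm : x ^ 2 - 6 * x + 10 ≤ m) (hX0 : 0 ≤ X)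
    (hX : X ≤ 3 * x + 1) (hy : 0 ≤ y) : (X / 9 + 1) * (X + 1) + 1 ≤ 2 * m + y := by
  have h1 : (X / 9 + 1) * (X + 1) ≤ ((3 * x + 1) / 9 + 1) * ((3 * x + 1) + 1) :=
    mul_le_mul (by linarith) (by linarith) (by linarith) (by linarith)
  nlinarith

theorem tip_num2 {x m y : ℝ} (hx : 100 ≤ x) (hm : x ^ 2 - 6 * x + 10 ≤ m) (hy : y ≤ x ^ 2) :
    (3 * x / 2 / 9 + 1) * (3 * x / 2 + 1) + 1 + y ≤ 2 * (m + 1) := by
  nlinarith

/-- **emptiness** -/
theorem F2N {τ : ℝ} {v u w : ℤ} (q : NumN n k k' m z t a b D) (h : SetN n k m d t x κ)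
    (g : GeoN k v u w τ x κ) (hm : (n : ℝ) - 6 * x + 10 ≤ m) :
    Emp (fun o : Option (Fin a ⊕ Fin b) => o.elim (D + 1) (two a b m)) (TZ d) := by
  obtain ⟨hk, hκ2, hκm, hX, hd1, hd2⟩ := h.facts
  obtain ⟨r1, r2, r3, r4⟩ := q.real
  have hx1 := h.hx1
  have hκ := h.hκ
  have hx0 : 0 < x := by linarith
  have hx100 : 100 ≤ x := by linarith
  have hm0 : (0 : ℝ) ≤ m := Nat.cast_nonneg m
  have ha0 : (0 : ℝ) ≤ a := Nat.cast_nonneg a
  have hb0 : (0 : ℝ) ≤ b := Nat.cast_nonneg b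
  have ht1 : (t : ℝ) / x ≤ x := by
    rw [div_le_iff₀ hx0]
    have : (t : ℝ) ≤ n := by exact_mod_cast h.htn
    rw [← h.sq] at this
    nlinarith
  obtain ⟨s1, s2, s3⟩ := rows_lt q h
  rw [← h.sq] at hm
  have hnx := h.sq
  have hr2 : (2 : ℝ) ≤ (a : ℝ) + b := by
    rw [r3, ← hnx]
    nlinarith
  have hr2' : 2 ≤ a + b := by exact_mod_cast hr2
  have hrow : ∀ j < m, (Pc ((2 - τ) * d) (((6 : ℤ) : ℝ) - 3 * (2 - τ)) (L1 d (D + 1)) (d / 3) k v j : ℝ) -
      Pc ((2 - τ) * d) (((6 : ℤ) : ℝ) - 3 * (2 - τ)) (L1 d (D + 1)) (d / 3) k v (j + 1) + 1 ≤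
      (((∑ i, two a b m i : ℕ) : ℕ) : ℝ) - ((Fintype.card (Fin a ⊕ Fin b) : ℝ) - ((a + b - 2 : ℕ) : ℝ)) -
        (Fintype.card (Fin a ⊕ Fin b) : ℝ) * j := by
    intro j hj
    have h1 := (abs_le.1 (row_lt (β := (2 - τ) * d) (E := D + 1) (e := 1) q h g.hlam g.hnoise hj
      (by push_cast; ring) (by norm_num) le_rfl)).2
    rw [two_sum, two_card, Nat.cast_sub hr2']
    push_cast at h1 ⊢
    linarith
  have e9 : (9 * (k : ℝ) + (3 * x + κ - 9 * k)) = 3 * x + κ := by ring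
  refine Emp_plane (t := 6) g.h0 g.h1 g.hirr (Emp_abs ?_)
  by_cases hup : 1 ≤ z ∧ (3 * x + κ) * (m + 1) ≤ 3 * (d : ℝ)
  · refine Emp_RF (σ := 3 * x + κ - 9 * k) (by have := h.hk; omega) g.hdet (by linarith) g.hlam
      (by omega) (n' := (Fintype.card (Fin a ⊕ Fin b) : ℝ)) (Z' := (((∑ i, two a b m i : ℕ) : ℕ) : ℝ))
      (s := a + b - 2) ?_ (J := m + 1) ?_ ?_ ?_ (Pool.Agent.TH641.NW.Emp_Cl (two a b m))
    · rw [two_card, Nat.cast_sub hr2']
      push_cast
      linarith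
    · intro j hj
      rcases Nat.lt_or_ge j m with hj' | hj'
      · exact hrow j hj'
      · have hjm : j = m := by omega
        subst hjm
        have h1 := (abs_le.1 (row_eq (β := (2 - τ) * d) (E := D + 1) (e := 1) q h g.hlam g.hnoise hup.1
          hup.2 (by push_cast; ring) (by norm_num) le_rfl)).2
        rw [two_sum, two_card, Nat.cast_sub hr2']
        push_cast at h1 ⊢
        linarith
    · have h1 := tip (beta := (2 - τ) * d) (E := D + 1) (j := m + 1) (X := 3 * x / 2) (by linarith) g.hlam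
        (d := d) (by
          rw [e9]
          push_cast
          have : 0 ≤ κ * (m + 1) := by positivity
          linarith)
      have h2 := tip_num2 (y := a) hx100 hm (by rw [hnx]; nlinarith)
      rw [two_sum, Nat.cast_sub hr2']
      push_cast at h1 ⊢
      linarith
    · refine tip_zero g.hlam ?_
      rw [e9]
      push_cast
      have : 0 ≤ κ * (m + 1 + 1) := by positivity
      linarith
  · have hz1 : 3 * (d : ℝ) ≤ (3 * x + κ) * (m + 1) := by
      rcases q.cases h with ⟨h3, h4, h5⟩ | ⟨h3, h4, h5⟩ | ⟨h3, h4, h5⟩ | ⟨h3, h4, h5⟩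
      · exact h5
      · exact h5
      · exact absurd ⟨by omega, h5⟩ hup
      · exact absurd ⟨by omega, by linarith⟩ hup
    refine Emp_RF (σ := 3 * x + κ - 9 * k) (by have := h.hk; omega) g.hdet (by linarith) g.hlam
      (by omega) (n' := (Fintype.card (Fin a ⊕ Fin b) : ℝ)) (Z' := (((∑ i, two a b m i : ℕ) : ℕ) : ℝ))
      (s := a + b - 2) ?_ (J := m) hrow ?_ ?_ (Pool.Agent.TH641.NW.Emp_Cl (two a b m))
    · rw [two_card, Nat.cast_sub hr2']
      push_cast
      linarith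
    · have h1 := tip (beta := (2 - τ) * d) (E := D + 1) (j := m) (X := 3 * x + κ) (by linarith) g.hlam
        (d := d) (by
          rw [e9]
          linarith)
      have h2 := tip_num (y := b) hx100 hm (by linarith : 0 ≤ 3 * x + κ) (by linarith) hb0
      rw [two_sum, Nat.cast_sub hr2']
      push_cast at h1 ⊢
      linarith
    · refine tip_zero g.hlam ?_
      rw [e9]
      push_cast
      exact hz1

end

end Pool.Agent.TH105.NU
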