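import Pool.Agent.TH105.NU.PSide
import Pool.Agent.TH105.N13.All

/-! The matching for vectors of two consecutive multiplicities. -/

set_option autoImplicit false

namespace Pool.Agent.TH105.NU

open Finset Pool.Agent.TH176.Nag Pool.Agent.TH603.Sur Pool.Agent.TH603.Cut Pool.Agent.TH641.NW
  Pool.Agent.TH641.UM

/-- the number of conditions of the bubble -/
theorem P_num {k k' m z a b D : ℕ} (hk' : k = 2 * k') (hk1 : 1 ≤ k') (hm : k' ≤ 2 * m) (hz : z ≤ 2)
    (hab : a + b = k ^ 2) (hb : b = 2 * z * k' ^ 2) (hD : D + 1 = k * m + (1 + z) * k') :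
    a * (m + 1).choose 2 + b * (m + 2).choose 2 ≤ (D + 2).choose 2 ∧
    (D + 2).choose 2 ≤ a * (m + 1).choose 2 + b * (m + 2).choose 2 + (D + 1) := by
  have c0 : 2 * (m + 1).choose 2 = m * (m + 1) := two_choose m
  have c1 : 2 * (m + 2).choose 2 = (m + 1) * (m + 2) := two_choose (m + 1)
  have c2 : 2 * (D + 2).choose 2 = (D + 1) * (D + 2) := two_choose (D + 1)
  have e : 2 * (((D + 2).choose 2 : ℕ) : ℤ) = 2 * (((a * (m + 1).choose 2 + b * (m + 2).choose 2 : ℕ) : ℤ)) +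
      ((1 - (z : ℤ)) ^ 2 * k' ^ 2 + 2 * k' * m + (1 + z) * k') := by
    have c0' : 2 * (((m + 1).choose 2 : ℕ) : ℤ) = m * (m + 1) := by exact_mod_cast c0
    have c1' : 2 * (((m + 2).choose 2 : ℕ) : ℤ) = (m + 1) * (m + 2) := by exact_mod_cast c1
    have c2' : 2 * (((D + 2).choose 2 : ℕ) : ℤ) = (D + 1) * (D + 2) := by exact_mod_cast c2
    have hD' : (D : ℤ) = k * m + (1 + z) * k' - 1 := by
      have : (D : ℤ) + 1 = k * m + (1 + z) * k' := by exact_mod_cast hD
      linarith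
    have ha' : (a : ℤ) = k ^ 2 - b := by
      have : (a : ℤ) + b = k ^ 2 := by exact_mod_cast hab
      linarith
    have hb' : (b : ℤ) = 2 * z * k' ^ 2 := by exact_mod_cast hb
    have hk'' : (k : ℤ) = 2 * k' := by exact_mod_cast hk'
    have e2 : 2 * ((a : ℤ) * (((m + 1).choose 2 : ℕ) : ℤ) + b * (((m + 2).choose 2 : ℕ) : ℤ)) =
        a * (m * (m + 1)) + b * ((m + 1) * (m + 2)) := by
      linear_combination (a : ℤ) * c0' + (b : ℤ) * c1'
    rw [c2', hD']
    push_cast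
    rw [e2, ha', hb', hk'']
    ring
  have hz2 : (1 - (z : ℤ)) ^ 2 ≤ 1 := by
    interval_cases z <;> norm_num
  have hz0 : 0 ≤ (1 - (z : ℤ)) ^ 2 := sq_nonneg _
  have hk'Z : (1 : ℤ) ≤ k' := by exact_mod_cast hk1
  have hmZ : (k' : ℤ) ≤ 2 * m := by exact_mod_cast hm
  have h1 : 0 ≤ (1 - (z : ℤ)) ^ 2 * k' ^ 2 := by positivity
  have h2 : (1 - (z : ℤ)) ^ 2 * k' ^ 2 ≤ k' ^ 2 := by nlinarith [sq_nonneg (k' : ℤ)]
  have h3 : (k' : ℤ) ^ 2 ≤ 2 * k' * m := by nlinarith
  have h4 : (0 : ℤ) ≤ (1 + z) * k' := by positivity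
  have h5 : (0 : ℤ) ≤ 2 * k' * m := by positivity
  have hD2 : ((D + 1 : ℕ) : ℤ) = 2 * k' * m + (1 + z) * k' := by
    rw [hD, hk']
    push_cast
    ring
  constructor
  · have : (((a * (m + 1).choose 2 + b * (m + 2).choose 2 : ℕ) : ℤ)) ≤ (((D + 2).choose 2 : ℕ) : ℤ) := by
      linarith
    exact_mod_cast this
  · have : (((D + 2).choose 2 : ℕ) : ℤ) ≤
        (((a * (m + 1).choose 2 + b * (m + 2).choose 2 : ℕ) : ℤ)) + ((D + 1 : ℕ) : ℤ) := by
      rw [hD2]
      linarith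
    exact_mod_cast this

/-- **the matching** -/
theorem match2 {k k' m z a b a' b' d D : ℕ} (hk : 14 ≤ k) (hk' : k = 2 * k') (hm : 3 * k ≤ 2 * m)
    (hz : z ≤ 2) (hab : a + b = k ^ 2) (hb : b = 2 * z * k' ^ 2) (hD : D + 1 = k * m + (1 + z) * k')
    (F1 : Sur (fun o : Option (Fin a' ⊕ Fin b') => o.elim D (two a' b' m)) (TZ d))
    (F2 : Emp (fun o : Option (Fin a' ⊕ Fin b') => o.elim (D + 1) (two a' b' m)) (TZ d)) (c : ℕ)
    (hc : (d + 2).choose 2 ≤ (a + a') * (m + 1).choose 2 + (b + b') * (m + 2).choose 2 + c) :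
    EmpM ((a + a') • {m} + (b + b') • {m + 1} + c • {1}) (TZ d) := by
  obtain ⟨hP1, hP2⟩ := P_num hk' (by omega) (by omega) hz hab hb hD
  obtain ⟨p, hp⟩ : ∃ p : ℕ, a * (m + 1).choose 2 + b * (m + 2).choose 2 + p = (D + 2).choose 2 :=
    ⟨_, Nat.add_sub_of_le hP1⟩
  obtain ⟨q, hq⟩ : ∃ q : ℕ, p + q = D + 1 := ⟨D + 1 - p, by omega⟩
  have hD1 : D = k * m + (1 + z) * k' - 1 := by omega
  have hD0 : 1 ≤ D := by
    have : k' ≤ (1 + z) * k' := by nlinarith
    omega
  have S1 := Sur_P2 (m := m) (by omega) hk' hab hb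
  have S2 := Emp_P2 hk hk' hm hab hb hz
  rw [← hD1] at S1 S2
  have h1 : EmpM (a • {m} + b • {m + 1} + p • {1}) (TZ D) := by
    refine (EmpM_iff ?_ _).2 (Emp_ones (p := p) S1 (by rw [two_cond]; omega))
    rw [ms_sum, two_ms, ms_fin]
  have h2 : EmpM (a • {m} + b • {m + 1}) (TZ (D - 1)) := (EmpM_iff (two_ms a b m) _).2 S2
  have hcc : (D + 1).choose 2 + (D + 1) = (D + 2).choose 2 := by
    have c1 : 2 * (D + 1).choose 2 = D * (D + 1) := two_choose D
    have c2 : 2 * (D + 2).choose 2 = (D + 1) * (D + 2) := two_choose (D + 1)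
    have : 2 * ((D + 1).choose 2 + (D + 1)) = 2 * (D + 2).choose 2 := by
      rw [mul_add, c1, c2]; ring
    omega
  have h3 : EmpM ({D} + (a' • {m} + b' • {m + 1} + c • {1}) + q • {1}) (TZ d) := by
    refine (EmpM_iff ?_ _).2 (Emp_ones (p := c + q) F1 ?_)
    · rw [ms_sum, ms_option, two_ms, ms_fin, add_smul]
      abel
    · have : Pool.Agent.TH603.Sur.cond (fun o : Option (Fin a' ⊕ Fin b') => o.elim D (two a' b' m)) =
          (D + 1).choose 2 + (a' * (m + 1).choose 2 + b' * (m + 2).choose 2) := by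
        have h := two_cond a' b' m
        unfold Pool.Agent.TH603.Sur.cond at h ⊢
        rw [Fintype.sum_option]
        simp only [Option.elim_none, Option.elim_some]
        rw [h]
      rw [this]
      have e : (a + a') * (m + 1).choose 2 + (b + b') * (m + 2).choose 2 =
          (a * (m + 1).choose 2 + b * (m + 2).choose 2) + (a' * (m + 1).choose 2 + b' * (m + 2).choose 2) := by
        ring
      rw [e] at hc
      omega
  have h4 : EmpM ({D + 1} + (a' • {m} + b' • {m + 1} + c • {1})) (TZ d) := by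
    have h5 : EmpM ({D + 1} + (a' • {m} + b' • {m + 1})) (TZ d) := by
      refine (EmpM_iff ?_ _).2 F2
      rw [ms_option, two_ms]
    refine h5.mono (le_of_le_of_eq (Multiset.le_add_right _ (c • {1})) ?_)
    abel
  have h := match_M Pool.Agent.TH105.N13.matchE hD0 hq.le h1 h2 h3 h4
  refine h.mono (le_of_eq ?_)
  rw [add_smul, add_smul]
  abel

end Pool.Agent.TH105.NU
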