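import Pool.Agent.TH105.NU.Row
import Pool.Agent.TH105.NU.Match
import Pool.Agent.TH105.N13.Num

/-! The two systems with one big point for vectors of two consecutive multiplicities. -/

set_option autoImplicit false

namespace Pool.Agent.TH105.NU

open Finset Pool.Agent.TH176.Nag Pool.Agent.TH603.Sur Pool.Agent.TH603.Cut Pool.Agent.TH663.N13
  Pool.Agent.TH105.N13

theorem FF_idN {x κ e Sb : ℝ} {k d E j : ℕ} (hE : (k : ℝ) * E = Sb + k ^ 2 / 2 - k + e * k) (S : ℝ) :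
    FF (3 * x + κ - 9 * k) k d E j = (x * (d + 3 / 2) - x ^ 2 / 2 - S) + (1 / 2 - e) * k +
      ((S - Sb) - (x ^ 2 - k ^ 2) * j) +
      (κ * (d / 3 + 1 / 2 - x / 3 - κ / 18) - κ * (2 * x / 3 + κ / 9) * j) := by
  unfold FF
  linear_combination (-1 : ℝ) * hE

/-- the setting of the critical degrees: `t` is the number of points of multiplicity `m + 1` -/
structure SetN (n k m d t : ℕ) (x κ : ℝ) : Prop where
  hx : x = √(n : ℝ)
  hk : 64 ≤ k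
  hx1 : 6.32 * (k : ℝ) ≤ x
  hx2 : x ≤ 12.65 * k
  hκ : 0 < κ
  hQ : κ * (d + (x + 1) * ((m + 1) + 1) + 2) ≤ 1
  htn : t ≤ n
  hd : |2 * (d : ℝ) + 3 - x - 2 * ((n : ℝ) * m + t) / x| < 1 / 52

theorem SetN.sq {n k m d t : ℕ} {x κ : ℝ} (h : SetN n k m d t x κ) : x ^ 2 = n := by
  rw [h.hx]
  exact Real.sq_sqrt (Nat.cast_nonneg n)

theorem SetN.facts {n k m d t : ℕ} {x κ : ℝ} (h : SetN n k m d t x κ) :
    (64 : ℝ) ≤ k ∧ κ ≤ 1 / 2 ∧ κ * (m + 1) ≤ 1 ∧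
      |x * (d + 3 / 2) - x ^ 2 / 2 - ((n : ℝ) * m + t)| ≤ (k : ℝ) / 8 ∧
      3 * (d : ℝ) ≤ 3 * x * m + 3 * (t / x) + 3 * x / 2 - 4.4 ∧
      3 * x * m + 3 * (t / x) + 3 * x / 2 - 4.6 ≤ 3 * (d : ℝ) := by
  have hk : (64 : ℝ) ≤ k := by exact_mod_cast h.hk
  have hx0 : 0 < x := by linarith [h.hx1]
  have hm0 : (0 : ℝ) ≤ m := Nat.cast_nonneg m
  have hd0 : (0 : ℝ) ≤ d := Nat.cast_nonneg d
  have hxm : (m : ℝ) + 1 ≤ (x + 1) * ((m + 1) + 1) := by nlinarith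
  have h1 := abs_lt.1 h.hd
  have e : 2 * ((n : ℝ) * m + t) / x = 2 * x * m + 2 * (t / x) := by
    rw [← h.sq]
    field_simp
  rw [e] at h1
  refine ⟨hk, ?_, ?_, ?_, by linarith, by linarith⟩
  · have : κ * 2 ≤ 1 := le_trans (mul_le_mul_of_nonneg_left (by linarith) h.hκ.le) h.hQ
    linarith
  · exact le_trans (mul_le_mul_of_nonneg_left (by linarith) h.hκ.le) h.hQ
  · have e : x * (d + 3 / 2) - x ^ 2 / 2 - ((n : ℝ) * m + t) =
        x / 2 * (2 * (d : ℝ) + 3 - x - 2 * ((n : ℝ) * m + t) / x) := by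
      field_simp
    rw [e, abs_mul, abs_of_nonneg (by linarith : 0 ≤ x / 2)]
    have h2 := h.hd.le
    have h3 := h.hx2
    have h4 := abs_nonneg (2 * (d : ℝ) + 3 - x - 2 * ((n : ℝ) * m + t) / x)
    calc x / 2 * |2 * (d : ℝ) + 3 - x - 2 * ((n : ℝ) * m + t) / x|
        ≤ (12.65 * k) / 2 * (1 / 52) := mul_le_mul (by linarith) h2 h4 (by positivity)
      _ ≤ (k : ℝ) / 8 := by linarith

/-- the noise hypothesis -/
def Noise (lam : ℝ) (k : ℕ) : Prop := ∀ (β : ℝ) (K : ℕ), K ≤ 6 * k →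
  |∑ i ∈ range K, (Int.fract (β + lam * i) - 1 / 2)| ≤ 1 / 32 * k

/-- two-sided row estimate -/
theorem row_numN {n k m d t E j : ℕ} {x κ e Sb β lam : ℝ} {v : ℤ} (h : SetN n k m d t x κ)
    (hj : j ≤ m + 1) (hE : (k : ℝ) * E = Sb + k ^ 2 / 2 - k + e * k)
    (hlam : lam * k = 3 * x + κ - 9 * k - v) (hnoise : Noise lam k)
    (c1 : k * (j + 1) ≤ E + 1) (c2 : 9 * (E : ℝ) + (3 * x + κ - 9 * k) * (j + 1) ≤ 3 * d)
    (c3 : (3 * x + κ) * (j + 1) ≤ 3 * d) :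
    |(Pc β lam (L1 d E) (d / 3) k v j : ℝ) - Pc β lam (L1 d E) (d / 3) k v (j + 1)
      - (((n : ℝ) * m + t - Sb) - ((n : ℝ) - k ^ 2) * j) - (1 / 2 - e) * k| ≤ (k : ℝ) / 4 + 17 / 8 := by
  obtain ⟨hk, hκ2, hκm, hX, hd1, hd2⟩ := h.facts
  have hx1 := h.hx1
  have hx2 := h.hx2
  have hκ := h.hκ
  have hj0 : (0 : ℝ) ≤ j := Nat.cast_nonneg j
  have hx0 : 0 ≤ x := by linarith
  have h1 := rs' (beta := β) (d := d) (E := E) (j := j) (N0 := 6 * k) (η := 1 / 32 * k) hlam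
    (by linarith) c1 c2 (by linarith) (by omega) (by push_cast; linarith) hnoise
  rw [FF_idN hE ((n : ℝ) * m + t), h.sq] at h1
  have h2 := pert (d := (d : ℝ)) (m := (m : ℝ) + 1) (j := j) hx0 hκ (Nat.cast_nonneg d) hj0
    (by exact_mod_cast hj) h.hQ
  rw [h.sq] at hX
  rw [abs_le] at h1 h2 hX ⊢
  constructor <;> linarith [h1.1, h1.2, h2.1, h2.2, hX.1, hX.2]

/-- the row `m`, lower bound with the auxiliary multiplicity `k (m + 1) - 1` -/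
theorem row_lowN {n k m d t E : ℕ} {x κ β lam : ℝ} {v : ℤ} (h : SetN n k m d t x κ)
    (hE : E + 1 = k * (m + 1)) (hlam : lam * k = 3 * x + κ - 9 * k - v) (hnoise : Noise lam k)
    (c3 : 3 * (d : ℝ) ≤ (3 * x + κ) * (m + 1)) :
    (t : ℝ) - k ^ 2 / 2 + k / 4 - 1 - (3 * (d : ℝ) - (3 * x + κ) * (m + 1) + 9) *
        (9 - (3 * (d : ℝ) - (3 * x + κ) * (m + 1) + 9)) / 18 ≤
      (Pc β lam (L1 d E) (d / 3) k v m : ℝ) - Pc β lam (L1 d E) (d / 3) k v (m + 1) := by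
  obtain ⟨hk, hκ2, hκm, hX, hd1, hd2⟩ := h.facts
  have hx1 := h.hx1
  have hx2 := h.hx2
  have hκ := h.hκ
  have hx0 : 0 < x := by linarith
  have hm0 : (0 : ℝ) ≤ m := Nat.cast_nonneg m
  have ht0 : 0 ≤ (t : ℝ) / x := by positivity
  have hER : (E : ℝ) + 1 = k * (m + 1) := by exact_mod_cast hE
  have h1 := rs_low (beta := β) (d := d) (E := E) (j := m) (N0 := 6 * k) (η := 1 / 32 * k)
    (by have := h.hk; omega) hlam (by linarith) hE.ge (by omega) (by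
      have e : (9 * (k : ℝ) + (3 * x + κ - 9 * k)) = 3 * x + κ := by ring
      rw [e]; exact c3) (by nlinarith) (by omega) (by push_cast; linarith) hnoise
  have hkE : (k : ℝ) * E = (k ^ 2 * (m + 1 / 2)) + k ^ 2 / 2 - k + 0 * k := by
    have : (E : ℝ) = k * (m + 1) - 1 := by linarith
    rw [this]
    ring
  rw [FF_idN hkE ((n : ℝ) * m + t), h.sq] at h1
  have h2 := pert (d := (d : ℝ)) (m := (m : ℝ) + 1) (j := m) hx0.le hκ (Nat.cast_nonneg d) hm0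
    (by linarith) h.hQ
  rw [h.sq] at hX
  have e2 : 3 * (d : ℝ) - (3 * x + κ - 9 * k) * (m + 1) - 9 * (k * (m + 1) - 1) =
      3 * (d : ℝ) - (3 * x + κ) * (m + 1) + 9 := by ring
  rw [e2] at h1
  rw [abs_le] at h2 hX
  linarith [h2.1, h2.2, hX.1, hX.2]

end Pool.Agent.TH105.NU
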