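import Pool.Agent.TH105.NU.Num

/-! The two systems with one big point: independence and emptiness. -/

set_option autoImplicit false

namespace Pool.Agent.TH105.NU

open Finset Pool.Agent.TH176.Nag Pool.Agent.TH603.Sur Pool.Agent.TH603.Cut Pool.Agent.TH663.N13
  Pool.Agent.TH105.N13

/-- the geometric parameters -/
structure GeoN (k : ℕ) (v u w : ℤ) (τ x κ : ℝ) : Prop where
  hdet : (k : ℤ) * u + v * w = 1
  h0 : 0 < τ
  h1 : τ < 1
  hirr : Irrational τ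
  hlam : (((6 : ℤ) : ℝ) - 3 * (2 - τ)) * k = (3 * x + κ - 9 * k) - v
  hnoise : Noise (((6 : ℤ) : ℝ) - 3 * (2 - τ)) k

theorem two_sub (a b m j : ℕ) : ∑ i, (two a b m i - j) = a * (m - j) + b * (m + 1 - j) := by
  simp [two, Fintype.sum_sum_type]

/-- the numbers of the points -/
structure NumN (n k k' m z t a b D : ℕ) : Prop where
  hk' : k = 2 * k'
  hz : z ≤ 2
  hD : D + 1 = k * m + (1 + z) * k'
  hn : a + b + k ^ 2 = n
  hb : b + 2 * z * k' ^ 2 = t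
  hcase : (z = 0 ∧ 4 * t ≤ n) ∨ (z = 1 ∧ n ≤ 4 * t ∧ 4 * t ≤ 3 * n) ∨ (z = 2 ∧ 3 * n ≤ 4 * t)

section
variable {n k k' m d t z a b D : ℕ} {x κ : ℝ}

theorem NumN.real (q : NumN n k k' m z t a b D) :
    (k : ℝ) = 2 * k' ∧ (D : ℝ) = k * m + (1 + z) * (k / 2) - 1 ∧ (a : ℝ) + b = n - k ^ 2 ∧
      (b : ℝ) = t - z * k ^ 2 / 2 := by
  have h1 : (k : ℝ) = 2 * k' := by exact_mod_cast q.hk'
  have h2 : (D : ℝ) + 1 = k * m + (1 + z) * k' := by exact_mod_cast q.hD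
  have h3 : (a : ℝ) + b + k ^ 2 = n := by exact_mod_cast q.hn
  have h4 : (b : ℝ) + 2 * z * k' ^ 2 = t := by exact_mod_cast q.hb
  refine ⟨h1, ?_, by linarith, ?_⟩
  · have : (k' : ℝ) = k / 2 := by linarith
    rw [← this]
    linarith
  · have : (k' : ℝ) = k / 2 := by linarith
    rw [this] at h4
    linarith

/-- consequences of the three cases -/
theorem NumN.cases (q : NumN n k k' m z t a b D) (h : SetN n k m d t x κ) :
    (z = 0 ∧ (t : ℝ) / x ≤ x / 4 ∧ 3 * (d : ℝ) ≤ (3 * x + κ) * (m + 1)) ∨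
    (z = 1 ∧ x / 4 ≤ (t : ℝ) / x ∧ 3 * (d : ℝ) ≤ (3 * x + κ) * (m + 1)) ∨
    (z = 1 ∧ x / 4 ≤ (t : ℝ) / x ∧ (3 * x + κ) * (m + 1) ≤ 3 * (d : ℝ)) ∨
    (z = 2 ∧ 3 * x / 4 ≤ (t : ℝ) / x ∧ (3 * x + κ) * (m + 1) + 9 * k / 2 + 0 ≤ 3 * (d : ℝ)) := by
  obtain ⟨hk, hκ2, hκm, hX, hd1, hd2⟩ := h.facts
  have hx1 := h.hx1
  have hκ := h.hκ
  have hx0 : 0 < x := by linarith
  have hm0 : (0 : ℝ) ≤ m := Nat.cast_nonneg m
  rcases q.hcase with ⟨h1, h2⟩ | ⟨h1, h2, h3⟩ | ⟨h1, h2⟩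
  · left
    have h3 : (4 : ℝ) * t ≤ n := by exact_mod_cast h2
    have h4 : (t : ℝ) / x ≤ x / 4 := by
      rw [div_le_iff₀ hx0]
      rw [← h.sq] at h3
      nlinarith
    have h5 : 0 ≤ κ * (m + 1) := by positivity
    exact ⟨h1, h4, by linarith⟩
  · right
    have h4 : (n : ℝ) ≤ 4 * t := by exact_mod_cast h2
    have h5 : x / 4 ≤ (t : ℝ) / x := by
      rw [le_div_iff₀ hx0]
      rw [← h.sq] at h4
      nlinarith
    rcases le_total (3 * (d : ℝ)) ((3 * x + κ) * (m + 1)) with h6 | h6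
    · exact Or.inl ⟨h1, h5, h6⟩
    · exact Or.inr (Or.inl ⟨h1, h5, h6⟩)
  · right; right; right
    have h4 : 3 * (n : ℝ) ≤ 4 * t := by exact_mod_cast h2
    have h5 : 3 * x / 4 ≤ (t : ℝ) / x := by
      rw [le_div_iff₀ hx0]
      rw [← h.sq] at h4
      nlinarith
    exact ⟨h1, h5, by linarith⟩

/-- the rows below `m` -/
theorem rows_lt (q : NumN n k k' m z t a b D) (h : SetN n k m d t x κ) :
    9 * ((D : ℝ) + 1) + (3 * x + κ - 9 * k) * m ≤ 3 * d ∧ (3 * x + κ) * m ≤ 3 * (d : ℝ) ∧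
      3 * (D + 1) ≤ d := by
  obtain ⟨hk, hκ2, hκm, hX, hd1, hd2⟩ := h.facts
  obtain ⟨r1, r2, r3, r4⟩ := q.real
  have hx1 := h.hx1
  have hκ := h.hκ
  have hx0 : 0 < x := by linarith
  have hm0 : (0 : ℝ) ≤ m := Nat.cast_nonneg m
  have ht0 : 0 ≤ (t : ℝ) / x := by positivity
  have key : 9 * ((D : ℝ) + 1) + (3 * x + κ - 9 * k) * m ≤ 3 * d := by
    rw [r2]
    rcases q.cases h with ⟨rfl, h4, h5⟩ | ⟨rfl, h4, h5⟩ | ⟨rfl, h4, h5⟩ | ⟨rfl, h4, h5⟩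
    · push_cast; linarith
    · push_cast; linarith
    · push_cast; linarith
    · push_cast; linarith
  refine ⟨key, by linarith, ?_⟩
  have h6 : 0 ≤ (3 * x + κ - 9 * k) * m := mul_nonneg (by linarith) hm0
  have h7 : ((3 * (D + 1) : ℕ) : ℝ) ≤ d := by push_cast; linarith
  exact_mod_cast h7

/-- two-sided estimate for `j < m` -/
theorem row_lt {β lam e : ℝ} {v : ℤ} {E j : ℕ} (q : NumN n k k' m z t a b D) (h : SetN n k m d t x κ)
    (hlam : lam * k = 3 * x + κ - 9 * k - v) (hnoise : Noise lam k) (hj : j < m)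
    (hE : (E : ℝ) = D + e) (he0 : 0 ≤ e) (he1 : e ≤ 1) :
    |(Pc β lam (L1 d E) (d / 3) k v j : ℝ) - Pc β lam (L1 d E) (d / 3) k v (j + 1)
      - ((a : ℝ) * (m - j) + b * (m + 1 - j)) - (1 / 2 - e) * k| ≤ (k : ℝ) / 4 + 17 / 8 := by
  obtain ⟨hk, hκ2, hκm, hX, hd1, hd2⟩ := h.facts
  obtain ⟨r1, r2, r3, r4⟩ := q.real
  obtain ⟨s1, s2, s3⟩ := rows_lt q h
  have hx1 := h.hx1
  have hκ := h.hκ
  have hx0 : 0 < x := by linarith
  have hj1 : (j : ℝ) + 1 ≤ m := by exact_mod_cast hj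
  have hkj : (k : ℝ) * (j + 1) ≤ k * m := mul_le_mul_of_nonneg_left hj1 (by linarith)
  have hz0 : (0 : ℝ) ≤ z := Nat.cast_nonneg z
  have hzk : 0 ≤ (z : ℝ) * (k / 2) := by positivity
  have h1 := row_numN (β := β) (E := E) (j := j) (e := e) (Sb := k ^ 2 * m + z * k ^ 2 / 2) h (by omega)
    (by rw [hE, r2]; ring) hlam hnoise (by
      have : ((k * (j + 1) : ℕ) : ℝ) ≤ ((E + 1 : ℕ) : ℝ) := by
        push_cast
        rw [hE, r2]
        linarith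
      exact_mod_cast this) (by
      have : (3 * x + κ - 9 * k) * ((j : ℝ) + 1) ≤ (3 * x + κ - 9 * k) * m :=
        mul_le_mul_of_nonneg_left hj1 (by linarith)
      rw [hE]
      linarith) (by
      have : (3 * x + κ) * ((j : ℝ) + 1) ≤ (3 * x + κ) * m :=
        mul_le_mul_of_nonneg_left hj1 (by linarith)
      linarith)
  have e1 : ((n : ℝ) * m + t - (k ^ 2 * m + z * k ^ 2 / 2)) - ((n : ℝ) - k ^ 2) * j =
      (a : ℝ) * (m - j) + b * (m + 1 - j) := by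
    have : (n : ℝ) = a + b + k ^ 2 := by linarith
    rw [this]
    linear_combination (-1 : ℝ) * r4
  rw [e1] at h1
  exact h1

/-- two-sided estimate for `j = m` -/
theorem row_eq {β lam e : ℝ} {v : ℤ} {E : ℕ} (q : NumN n k k' m z t a b D) (h : SetN n k m d t x κ)
    (hlam : lam * k = 3 * x + κ - 9 * k - v) (hnoise : Noise lam k) (hz1 : 1 ≤ z)
    (hc : (3 * x + κ) * (m + 1) ≤ 3 * (d : ℝ)) (hE : (E : ℝ) = D + e) (he0 : 0 ≤ e) (he1 : e ≤ 1) :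
    |(Pc β lam (L1 d E) (d / 3) k v m : ℝ) - Pc β lam (L1 d E) (d / 3) k v (m + 1)
      - b - (1 / 2 - e) * k| ≤ (k : ℝ) / 4 + 17 / 8 := by
  obtain ⟨hk, hκ2, hκm, hX, hd1, hd2⟩ := h.facts
  obtain ⟨r1, r2, r3, r4⟩ := q.real
  have hx1 := h.hx1
  have hκ := h.hκ
  have hx0 : 0 < x := by linarith
  have hz1R : (1 : ℝ) ≤ z := by exact_mod_cast hz1
  have hzk : (k : ℝ) / 2 ≤ z * (k / 2) := by nlinarith
  have h1 := row_numN (β := β) (E := E) (j := m) (e := e) (Sb := k ^ 2 * m + z * k ^ 2 / 2) h (by omega)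
    (by rw [hE, r2]; ring) hlam hnoise (by
      have : ((k * (m + 1) : ℕ) : ℝ) ≤ ((E + 1 : ℕ) : ℝ) := by
        push_cast
        rw [hE, r2]
        linarith
      exact_mod_cast this) (by
      rw [hE, r2]
      rcases q.cases h with ⟨rfl, h4, h5⟩ | ⟨rfl, h4, h5⟩ | ⟨rfl, h4, h5⟩ | ⟨rfl, h4, h5⟩
      · omega
      · push_cast; linarith
      · push_cast; linarith
      · push_cast; linarith) hc
  have e1 : ((n : ℝ) * m + t - (k ^ 2 * m + z * k ^ 2 / 2)) - ((n : ℝ) - k ^ 2) * m = b := by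
    rw [r4]
    ring
  rw [e1] at h1
  exact h1

end

end Pool.Agent.TH105.NU
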